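import Pool.Agent.R972.OP.Stm3

set_option autoImplicit false

namespace Pool.Agent.R462.OP

open MeasureTheory Set Filter Topology
open scoped ENNReal
open Pool.Agent.R972.OP
open Pool.Agent.W695.KH (Eu)

theorem isClosed_Sx {n : ℕ} (s : Equiv.Perm (Fin n)) : IsClosed (Sx s) := by
  have e : Sx s = (⋂ i, {x : Fin n → ℝ | 0 ≤ x i}) ∩ (⋂ i, {x : Fin n → ℝ | x i ≤ 1}) ∩
      ⋂ i, ⋂ j, ⋂ _ : i ≤ j, {x : Fin n → ℝ | x (s i) ≤ x (s j)} := by
    ext x
    simp only [Sx, mem_ofPred_eq, mem_inter_iff, mem_iInter]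
    constructor
    · rintro ⟨a, b⟩
      exact ⟨⟨fun i => (a i).1, fun i => (a i).2⟩, fun i j h => b h⟩
    · rintro ⟨⟨a, b⟩, c⟩
      exact ⟨fun i => ⟨a i, b i⟩, fun i j h => c i j h⟩
  rw [e]
  refine ((isClosed_iInter fun i => ?_).inter (isClosed_iInter fun i => ?_)).inter
    (isClosed_iInter fun i => isClosed_iInter fun j => isClosed_iInter fun _ => ?_)
  · exact isClosed_le continuous_const (continuous_apply i)
  · exact isClosed_le (continuous_apply i) continuous_const
  · exact isClosed_le (continuous_apply _) (continuous_apply _)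

theorem isClosed_US {n : ℕ} (T : Finset (Equiv.Perm (Fin n))) : IsClosed (US T) := by
  have e : US T = ⋃ s ∈ T, Sx s := by
    ext x
    simp [US]
  rw [e]
  exact T.finite_toSet.isClosed_biUnion fun s _ => isClosed_Sx s

theorem vol_pre {n : ℕ} (S : Set (Fin n → ℝ)) :
    volume ((fun x : Eu (Fin n) => x.ofLp) ⁻¹' S) = volume S :=
  (EuclideanSpace.volume_preserving_symm_measurableEquiv_toLp (Fin n)).measure_preimage_equiv S

theorem isClosed_OPp {n : ℕ} (r : Fin n → Fin n → Prop) : IsClosed (OPp r) := by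
  have e : OPp r = (⋂ i, {x : Fin n → ℝ | 0 ≤ x i}) ∩ (⋂ i, {x : Fin n → ℝ | x i ≤ 1}) ∩
      ⋂ i, ⋂ j, ⋂ _ : r i j, {x : Fin n → ℝ | x i ≤ x j} := by
    ext x
    simp only [OPp, mem_ofPred_eq, mem_inter_iff, mem_iInter]
    constructor
    · rintro ⟨a, b⟩
      exact ⟨⟨fun i => (a i).1, fun i => (a i).2⟩, fun i j h => b i j h⟩
    · rintro ⟨⟨a, b⟩, c⟩
      exact ⟨fun i => ⟨a i, b i⟩, fun i j h => c i j h⟩
  rw [e]
  refine ((isClosed_iInter fun i => ?_).inter (isClosed_iInter fun i => ?_)).inter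
    (isClosed_iInter fun i => isClosed_iInter fun j => isClosed_iInter fun _ => ?_)
  · exact isClosed_le continuous_const (continuous_apply i)
  · exact isClosed_le (continuous_apply i) continuous_const
  · exact isClosed_le (continuous_apply _) (continuous_apply _)

theorem fin2 (h1 : S_ALL) (h2 : S_MKC) (h3 : S_VOL) (h4 : S_TR) (h5 : S_GEO) : S_FIN := by
  intro n r _ _ E A hE hA hne hcard
  have hApos : 0 < A.card := hne.card_pos
  have hEpos : 0 < E.card := by omega
  have hAE : A.card ≤ E.card := Finset.card_le_card hA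
  rcases Nat.eq_zero_or_pos n with h0 | hn
  · subst h0
    have h6 : E.card ≤ 1 := by
      have := Finset.card_le_univ E
      simpa using this
    omega
  obtain ⟨hv, hnull⟩ := h3 n r E hE
  obtain ⟨hUE, hvE⟩ := hv E (Finset.Subset.refl _)
  obtain ⟨hUS, hvS⟩ := hv (E \ A) Finset.sdiff_subset
  have hnf : (0 : ℝ) < n.factorial := by exact_mod_cast n.factorial_pos
  have hEr : (0 : ℝ) < E.card := by exact_mod_cast hEpos
  have hAr : (0 : ℝ) < A.card := by exact_mod_cast hApos
  have hcardS : ((E \ A).card : ℝ) = (E.card : ℝ) - A.card := by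
    rw [Finset.card_sdiff_of_subset hA, Nat.cast_sub hAE]
  -- the volume of the polytope
  have hV : volume (OE r) = ENNReal.ofReal ((E.card : ℝ) / n.factorial) := by
    rw [(h4 n r).1, ← hvE]
    refine le_antisymm ?_ (measure_mono hUE)
    calc volume (OPp r) ≤ volume (US E ∪ (OPp r \ US E)) := measure_mono (by
            intro x hx
            by_cases h : x ∈ US E
            · exact Or.inl h
            · exact Or.inr ⟨hx, h⟩)
      _ ≤ volume (US E) + volume (OPp r \ US E) := measure_union_le _ _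
      _ = volume (US E) := by rw [hnull, add_zero]
  have hVr : 0 < (E.card : ℝ) / n.factorial := div_pos hEr hnf
  have hVpos : 0 < volume (OE r) := by rw [hV]; exact ENNReal.ofReal_pos.2 hVr
  have hVtop : volume (OE r) ≠ ∞ := by rw [hV]; exact ENNReal.ofReal_ne_top
  have hOE : OE r = (fun x : Eu (Fin n) => x.ofLp) ⁻¹' OPp r := rfl
  have mOE : MeasurableSet (OE r) := (h5 n r).1.isClosed.measurableSet
  obtain ⟨μ, hμ⟩ : ∃ μ : Measure (Eu (Fin n)),
    μ = (volume (OE r))⁻¹ • volume.restrict (OE r) := ⟨_, rfl⟩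
  obtain ⟨S, hS⟩ : ∃ S : Set (Eu (Fin n)), S = (fun x : Eu (Fin n) => x.ofLp) ⁻¹' US (E \ A) :=
    ⟨_, rfl⟩
  have cof : Continuous fun x : Eu (Fin n) => x.ofLp := PiLp.continuous_ofLp 2 _
  have mS : MeasurableSet S := by
    rw [hS]
    exact ((isClosed_US _).preimage cof).measurableSet
  have hSO : S ⊆ OE r := by
    rw [hS, hOE]
    exact preimage_mono hUS
  have μS : μ S = (volume (OE r))⁻¹ * ENNReal.ofReal (((E \ A).card : ℝ) / n.factorial) := by
    rw [hμ, Measure.smul_apply, smul_eq_mul, Measure.restrict_apply mS,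
      inter_eq_self_of_subset_left hSO, ← hvS, hS, vol_pre]
  have key := h1 n r hVpos μ hμ S mS
  -- the thickening
  have thick : ∀ e : ℝ, 0 < e → μ (Metric.thickening e S) ≤ μ S + (volume (OE r))⁻¹ *
      ENNReal.ofReal ((eb A E : ℝ) * (2 * e) / (n - 1).factorial
        + A.card * n ^ 2 * (2 * e) ^ 2) := by
    intro e he
    have h6 := h2 n r E A hE hA e he
    have h7 : Metric.thickening e S ∩ OE r ⊆ (fun x : Eu (Fin n) => x.ofLp) ⁻¹'
        {x ∈ OPp r | ∃ y ∈ US (E \ A), ∀ i, |x i - y i| ≤ e} := by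
      rintro x ⟨hx1, hx2⟩
      obtain ⟨z, hz, hxz⟩ := Metric.mem_thickening_iff.1 hx1
      rw [hS] at hz
      refine ⟨hx2, z.ofLp, hz, fun i => ?_⟩
      have h8 : ‖(x - z).ofLp i‖ ≤ ‖x - z‖ := PiLp.norm_apply_le (x - z) i
      rw [dist_eq_norm] at hxz
      rw [Real.norm_eq_abs] at h8
      exact h8.trans hxz.le
    have h9 : volume (Metric.thickening e S ∩ OE r) ≤
        volume {x ∈ OPp r | ∃ y ∈ US (E \ A), ∀ i, |x i - y i| ≤ e} := by
      exact (measure_mono h7).trans (vol_pre _).le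
    rw [hμ, Measure.smul_apply, Measure.smul_apply, smul_eq_mul, smul_eq_mul,
      Measure.restrict_apply' mOE, ← mul_add]
    gcongr
    rw [Measure.restrict_apply mS, inter_eq_self_of_subset_left hSO, hS,
      vol_pre]
    rw [hS] at h9
    exact h9.trans h6
  -- the limit
  obtain ⟨N, hN⟩ : ∃ N : ℝ, N = ((n - 1).factorial : ℝ) := ⟨_, rfl⟩
  have hNpos : 0 < N := by rw [hN]; exact_mod_cast (n - 1).factorial_pos
  have hlim : liminf (fun ε : ℝ => (μ (Metric.thickening ε S) - μ S) / ENNReal.ofReal ε)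
      (𝓝[>] 0) ≤ (volume (OE r))⁻¹ * ENNReal.ofReal (2 * (eb A E : ℝ) / N) := by
    have t1 : Tendsto (fun ε : ℝ => (volume (OE r))⁻¹ * ENNReal.ofReal (2 * (eb A E : ℝ) / N
        + 4 * (A.card * n ^ 2) * ε)) (𝓝[>] 0)
        (𝓝 ((volume (OE r))⁻¹ * ENNReal.ofReal (2 * (eb A E : ℝ) / N))) := by
      refine ENNReal.Tendsto.const_mul ?_ (Or.inr (ENNReal.inv_ne_top.2 hVpos.ne'))
      refine ENNReal.tendsto_ofReal ?_
      have : Tendsto (fun ε : ℝ => 2 * (eb A E : ℝ) / N + 4 * (A.card * n ^ 2) * ε) (𝓝 0)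
          (𝓝 (2 * (eb A E : ℝ) / N + 4 * (A.card * n ^ 2) * 0)) :=
        (Continuous.tendsto (by fun_prop) 0)
      rw [mul_zero, add_zero] at this
      exact this.mono_left nhdsWithin_le_nhds
    rw [← t1.liminf_eq]
    refine liminf_le_liminf ?_
    filter_upwards [self_mem_nhdsWithin] with ε hε
    have hε' : (0 : ℝ) < ε := hε
    have e1 : ENNReal.ofReal ε ≠ 0 := (ENNReal.ofReal_pos.2 hε').ne'
    refine ENNReal.div_le_of_le_mul ?_
    rw [tsub_le_iff_left]
    refine (thick ε hε').trans ?_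
    rw [mul_assoc (volume (OE r))⁻¹, ← ENNReal.ofReal_mul (by positivity)]
    refine add_le_add le_rfl (mul_le_mul' le_rfl (ENNReal.ofReal_le_ofReal (le_of_eq ?_)))
    rw [← hN]
    field_simp
    ring
  have key2 := key.trans (mul_le_mul' le_rfl hlim)
  -- real numbers
  obtain ⟨m, hm⟩ : ∃ m, n = m + 1 := ⟨n - 1, by omega⟩
  have hfac : (n.factorial : ℝ) = n * N := by
    rw [hN, hm, Nat.factorial_succ]
    push_cast
    simp
  have hnr : (0 : ℝ) < n := by exact_mod_cast hn
  have hq : μ S = ENNReal.ofReal (((E.card : ℝ) - A.card) / E.card) := by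
    rw [μS, hV, ← ENNReal.ofReal_inv_of_pos hVr, ← ENNReal.ofReal_mul (by positivity), hcardS]
    congr 1
    field_simp
  have hq1 : 1 - μ S = ENNReal.ofReal ((A.card : ℝ) / E.card) := by
    rw [hq, ← ENNReal.ofReal_one, ← ENNReal.ofReal_sub _ (by
      have : (A.card : ℝ) ≤ E.card := by exact_mod_cast hAE
      exact div_nonneg (by linarith) hEr.le)]
    congr 1
    field_simp
    ring
  have hr : (volume (OE r))⁻¹ * ENNReal.ofReal (2 * (eb A E : ℝ) / N)
      = ENNReal.ofReal (2 * n * (eb A E : ℝ) / E.card) := by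
    rw [hV, ← ENNReal.ofReal_inv_of_pos hVr, ← ENNReal.ofReal_mul (by positivity)]
    congr 1
    rw [hfac]
    field_simp
  rw [hq1, hq, hr, ← ENNReal.ofReal_mul (by
      have : (A.card : ℝ) ≤ E.card := by exact_mod_cast hAE
      exact div_nonneg (by linarith) hEr.le), ← ENNReal.ofReal_mul (by positivity),
    ENNReal.ofReal_le_ofReal_iff (by positivity)] at key2
  have hpi := Real.pi_gt_three
  have hpi0 := Real.pi_pos
  have h2A : 2 * (A.card : ℝ) ≤ E.card := by exact_mod_cast hcard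
  have k1 : ((E.card : ℝ) - A.card) / E.card * (A.card / E.card) * (E.card * (E.card * Real.pi))
      ≤ 4 / Real.pi * (2 * n * (eb A E : ℝ) / E.card) * (E.card * (E.card * Real.pi)) :=
    mul_le_mul_of_nonneg_right key2 (by positivity)
  have k2 : ((E.card : ℝ) - A.card) / E.card * (A.card / E.card) * (E.card * (E.card * Real.pi))
      = ((E.card : ℝ) - A.card) * A.card * Real.pi := by
    field_simp
  have k3 : 4 / Real.pi * (2 * n * (eb A E : ℝ) / E.card) * (E.card * (E.card * Real.pi))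
      = 8 * (n * (eb A E : ℝ)) * E.card := by
    field_simp
    ring
  rw [k2, k3] at k1
  have k4 : (E.card : ℝ) / 2 * (A.card * Real.pi) ≤ ((E.card : ℝ) - A.card) * A.card * Real.pi := by
    have : 0 < (A.card : ℝ) * Real.pi := by positivity
    nlinarith
  have k5 : (E.card : ℝ) * (A.card * Real.pi) ≤ (E.card : ℝ) * (16 * (n * (eb A E : ℝ))) := by
    linarith
  have k6 : (A.card : ℝ) * Real.pi ≤ 16 * (n * (eb A E : ℝ)) := le_of_mul_le_mul_left k5 hEr
  nlinarith

/-- The frozen statement S08419. -/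
theorem frozen (h : S_FIN) : ∃ c : ℝ, 0 < c ∧ ∀ (n : ℕ) (r : Fin n → Fin n → Prop),
    (∀ a, r a a) → (∀ a b, r a b → r b a → a = b) →
    (∀ a b d, r a b → r b d → r a d) →
    ∀ E : Finset (Equiv.Perm (Fin n)),
      (∀ σ : Equiv.Perm (Fin n), σ ∈ E ↔ ∀ i j : Fin n, r (σ i) (σ j) → i ≤ j) →
    ∀ A : Finset (Equiv.Perm (Fin n)), A ⊆ E → A.Nonempty → 2 * A.card ≤ E.card →
      c * (A.card : ℝ) ≤ (n : ℝ) *
        (((A ×ˢ (E \ A)).filter
          (fun p : Equiv.Perm (Fin n) × Equiv.Perm (Fin n) =>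
            ∃ i j : Fin n, j.val = i.val + 1 ∧ p.2 = p.1 * Equiv.swap i j)).card : ℝ) := by
  refine ⟨1 / 6, by norm_num, fun n r _ h1 h2 E hE A hA hne hcard => ?_⟩
  have h3 := h n r h1 h2 E A hE hA hne hcard
  have h4 : eb A E = ((A ×ˢ (E \ A)).filter
          (fun p : Equiv.Perm (Fin n) × Equiv.Perm (Fin n) =>
            ∃ i j : Fin n, j.val = i.val + 1 ∧ p.2 = p.1 * Equiv.swap i j)).card := by
    unfold eb
    refine congrArg Finset.card ?_
    ext p
    simp only [Finset.mem_filter, Finset.mem_product, Finset.mem_sdiff]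
  rw [h4] at h3
  exact h3

end Pool.Agent.R462.OP
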